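import Pool.Agent.Q112.TT.Main

/-!
# MP_7ddfd8_al: a closed oligomorphic algebra with nontrivial linear identities, but without
terminator terms

`M` is the ternary relation of a generic countable structure in which the pattern behind the
terminator identities does not occur. The algebra consists of all operations on `ℕ` that preserve
`M` and its complement. Terminator terms would produce the forbidden pattern from a copy of
one-in-three satisfiability, while the free structure of the identities
`p₁(x,y,y) = p₁(x,x,x)`, `pᵢ(x,x,y) = pᵢ₊₁(x,y,y)` (`i < 8`), `p₈(x,x,y) = p₈(y,y,y)` over `M`
does not contain the pattern, because the pattern has only seven constraints.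
-/

namespace Pool.Agent.Results.MP_7ddfd8_al.NoTerminatorTerms

open Q112TT

/-- There is a closed oligomorphic algebra with universe `ℕ` that satisfies a (finite) nontrivial
set of linear identities, namely the quasi Hagemann-Mitschke identities with eight ternary terms,
and has no terminator terms. -/
theorem result : ∃ F : Set (Σ m : ℕ, (Fin m → ℕ) → ℕ), ClosedOligomorphic F ∧
    HasQuasiHagemannMitschke F 8 ∧ SatisfiesNontrivial F ∧ ¬ HasTerminatorTerms F := by
  obtain ⟨R, hRo, hR⟩ := exists_rich
  exact ⟨Ops R, closedOligomorphic hRo hR, quasiHM hRo hR, satisfiesNontrivial (quasiHM hRo hR),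
    not_terminator hRo hR⟩

end Pool.Agent.Results.MP_7ddfd8_al.NoTerminatorTerms
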